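import Mathlib
import Pool.Agent.H37PG.Transfer

set_option autoImplicit false

namespace Pool.Agent.Results.MP_a267a3_lc.FourTransitive

open Pool.Agent.H37PG

/-- Let `F` be an algebraically closed field that is not algebraic over its prime field, and let
`H` be any group of permutations of the projective line of `F` which contains every permutation
induced by a semilinear bijection of `F²` and contains at least one more permutation.  Then `H`
is 4-transitive: any 4-tuple of distinct points can be moved by `H` to any other 4-tuple of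
distinct points. -/
theorem result :
    ∀ (F : Type) [Field F] [IsAlgClosed F],
      ¬ Algebra.IsAlgebraic (⊥ : Subfield F) F →
      ∀ H : Subgroup (Equiv.Perm (Projectivization F (Fin 2 → F))),
        (∀ σ : Equiv.Perm (Projectivization F (Fin 2 → F)),
          (∃ (φ : F ≃+* F) (f : (Fin 2 → F) →ₛₗ[φ.toRingHom] (Fin 2 → F))
            (hf : Function.Injective f), ⇑σ = Projectivization.map f hf) → σ ∈ H) →
        (∃ h ∈ H, ¬ ∃ (φ : F ≃+* F) (f : (Fin 2 → F) →ₛₗ[φ.toRingHom] (Fin 2 → F))
            (hf : Function.Injective f), ⇑h = Projectivization.map f hf) →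
        ∀ x y : Fin 4 → Projectivization F (Fin 2 → F),
          Function.Injective x → Function.Injective y → ∃ h ∈ H, ∀ i, h (x i) = y i := by
  intro F _ _ hF H hsub hne x y hx hy
  have hG : ∀ g ∈ Gam F, g ∈ pull H := fun g hg => hsub _ (semi_of_Gam hg)
  have hne' : ∃ g ∈ pull H, g ∉ Gam F := by
    obtain ⟨h, hh, hn⟩ := hne
    obtain ⟨g, rfl⟩ := exists_cj h
    exact ⟨g, hh, fun hg => hn (semi_of_Gam hg)⟩
  have hJ := main_option hF (pull H) hG hne'
  -- move a 4-tuple to a standard one
  have std : ∀ x : Fin 4 → Projectivization F (Fin 2 → F), Function.Injective x →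
      ∃ g ∈ pull H, ∃ p : Option F, p ∉ ({none, some 0, some 1} : Set (Option F)) ∧
        cj g (ee F none) = x 0 ∧ cj g (ee F (some 0)) = x 1 ∧ cj g (ee F (some 1)) = x 2 ∧
        cj g (ee F p) = x 3 := by
    intro x hx
    obtain ⟨δ, hδ, h1, h2, h3⟩ := three_trans ((ee F).symm (x 0)) ((ee F).symm (x 1))
      ((ee F).symm (x 2))
      (fun h => by have := hx ((ee F).symm.injective h); simp at this)
      (fun h => by have := hx ((ee F).symm.injective h); simp at this)
      (fun h => by have := hx ((ee F).symm.injective h); simp at this)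
    refine ⟨δ, hG _ hδ, δ⁻¹ ((ee F).symm (x 3)), ?_, ?_, ?_, ?_, ?_⟩
    · intro hp
      have key : ∀ (q : Option F) (i : Fin 4), δ q = (ee F).symm (x i) →
          δ⁻¹ ((ee F).symm (x 3)) = q → i = 3 := by
        intro q i h4 h5
        have h6 : (ee F).symm (x 3) = δ q := by rw [← h5, app_inv]
        rw [h4] at h6
        exact (hx ((ee F).symm.injective h6)).symm
      rcases hp with hp | hp | hp
      · have := key _ 0 h1 hp
        simp at this
      · have := key _ 1 h2 hp
        simp at this
      · have := key _ 2 h3 hp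
        simp at this
    · rw [cj_apply, h1, Equiv.apply_symm_apply]
    · rw [cj_apply, h2, Equiv.apply_symm_apply]
    · rw [cj_apply, h3, Equiv.apply_symm_apply]
    · rw [cj_apply, app_inv, Equiv.apply_symm_apply]
  obtain ⟨g, hg, p, hp, g0, g1, g2, g3⟩ := std x hx
  obtain ⟨g', hg', p', hp', g0', g1', g2', g3'⟩ := std y hy
  obtain ⟨u, hu, huf, hup⟩ := hJ p p' hp hp'
  refine ⟨cj g' * (cj u * (cj g)⁻¹), H.mul_mem hg' (H.mul_mem hu (H.inv_mem hg)), ?_⟩
  intro i
  rw [Equiv.Perm.mul_apply, Equiv.Perm.mul_apply]
  fin_cases i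
  · change cj g' (cj u ((cj g)⁻¹ (x 0))) = y 0
    rw [← g0, inv_app, cj_apply, huf none (by simp), g0']
  · change cj g' (cj u ((cj g)⁻¹ (x 1))) = y 1
    rw [← g1, inv_app, cj_apply, huf (some 0) (by simp), g1']
  · change cj g' (cj u ((cj g)⁻¹ (x 2))) = y 2
    rw [← g2, inv_app, cj_apply, huf (some 1) (by simp), g2']
  · change cj g' (cj u ((cj g)⁻¹ (x 3))) = y 3
    rw [← g3, inv_app, cj_apply, hup, g3']

end Pool.Agent.Results.MP_a267a3_lc.FourTransitive
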