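import Mathlib
import Pool.Agent.H37PU.Tr2

set_option autoImplicit false

namespace Pool.Agent.Results.MP_a267a3_lc.SteinerOddAllChar

open Pool.Agent.H37PG Pool.Agent.H37PU

/-- Let `F` be an algebraically closed field, not algebraic over its prime field, which has
characteristic zero or transcendence degree at least two over its prime field, and let `H` be a
group of permutations of the projective line of `F` which contains all permutations induced by
semilinear bijections of `F²` and at least one more permutation.  Then either `H` is dense in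
the symmetric group (equal to it when closed), or there is an odd `n ≥ 5` such that `H` is
`n`-transitive, not `(n+1)`-transitive, and preserves an `n`-Steiner system whose blocks are
proper and have more than `n` points, the pointwise stabiliser in `H` of each block being
transitive on the points outside it. -/
theorem result :
    ∀ (F : Type) [Field F] [IsAlgClosed F],
      ¬ Algebra.IsAlgebraic (⊥ : Subfield F) F →
      (CharZero F ∨ 2 ≤ Algebra.trdeg (⊥ : Subfield F) F) →
      ∀ H : Subgroup (Equiv.Perm (Projectivization F (Fin 2 → F))),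
        (∀ σ : Equiv.Perm (Projectivization F (Fin 2 → F)),
          (∃ (φ : F ≃+* F) (f : (Fin 2 → F) →ₛₗ[φ.toRingHom] (Fin 2 → F))
            (hf : Function.Injective f), ⇑σ = Projectivization.map f hf) → σ ∈ H) →
        (∃ h ∈ H, ¬ ∃ (φ : F ≃+* F) (f : (Fin 2 → F) →ₛₗ[φ.toRingHom] (Fin 2 → F))
            (hf : Function.Injective f), ⇑h = Projectivization.map f hf) →
        (∀ (σ : Equiv.Perm (Projectivization F (Fin 2 → F)))
            (A : Finset (Projectivization F (Fin 2 → F))), ∃ h ∈ H, ∀ x ∈ A, h x = σ x) ∨
        ∃ n : ℕ, Odd n ∧ 5 ≤ n ∧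
          (∀ x y : Fin n → Projectivization F (Fin 2 → F),
            Function.Injective x → Function.Injective y → ∃ h ∈ H, ∀ i, h (x i) = y i) ∧
          (¬ ∀ x y : Fin (n + 1) → Projectivization F (Fin 2 → F),
            Function.Injective x → Function.Injective y → ∃ h ∈ H, ∀ i, h (x i) = y i) ∧
          ∃ 𝓑 : Set (Set (Projectivization F (Fin 2 → F))),
            (∀ h ∈ H, ∀ B ∈ 𝓑, h '' B ∈ 𝓑) ∧
            (∀ S : Finset (Projectivization F (Fin 2 → F)), S.card = n →
              ∃! B, B ∈ 𝓑 ∧ (S : Set (Projectivization F (Fin 2 → F))) ⊆ B) ∧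
            (∀ B ∈ 𝓑, B ≠ Set.univ ∧
              (∃ T : Finset (Projectivization F (Fin 2 → F)), T.card = n + 1 ∧
                (T : Set (Projectivization F (Fin 2 → F))) ⊆ B) ∧
              ∀ x y, x ∉ B → y ∉ B → ∃ h ∈ H, (∀ b ∈ B, h b = b) ∧ h x = y) := by
  intro F _ _ hF hh H hsub hne
  have hG : ∀ g ∈ Gam F, g ∈ pull H := fun g hg => hsub _ (semi_of_Gam hg)
  have hne' : ∃ g ∈ pull H, g ∉ Gam F := by
    obtain ⟨h, hh, hn⟩ := hne
    obtain ⟨g, rfl⟩ := exists_cj h
    exact ⟨g, hh, fun hg => hn (semi_of_Gam hg)⟩
  rcases structure_option hF hh (pull H) hG hne' with h | ⟨n, hodd, h5, hT, hnT, hS⟩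
  · left
    exact dense_of_TT H (fun n => (TT_pull H n).1 (h n))
  · right
    exact ⟨n, hodd, h5, (TT_pull H n).1 hT, fun h => hnT ((TT_pull H (n + 1)).2 h),
      Stn_pull H n hS⟩

end Pool.Agent.Results.MP_a267a3_lc.SteinerOddAllChar
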